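import Pool.Agent.helper74.VD.SpecI
import Pool.Agent.helper80.VD.SpecF

/-!
# Row vd:ASGF (MP_07c750_an): finite sets of chart changes, with bounds
-/

set_option autoImplicit false

open scoped ContDiff Topology InnerProductSpace ComplexConjugate ENNReal
open MeasureTheory Filter Set

namespace Pool.Agent.VD

/-- the bounds for one element of the group -/
def ASGF_Q {Γ : Type} {d : ℕ} [Group Γ] [MulAction Γ (V d)] (r : ℝ) (n : ℕ) (γ : Γ) (C : ℝ) : Prop :=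
  ∀ x : V d, ‖x‖ ≤ r →
  (∀ m ≤ n, ‖iteratedFDeriv ℝ m (fun y : V d => γ • y) x‖ ≤ C) ∧ (∀ u : V d, ‖u‖ ≤ C * ‖fderiv ℝ (fun y : V d => γ • y) x u‖) ∧ (∀ y : V d, ‖y‖ ≤ r → ‖γ • x - γ • y‖ ≤ C * ‖x - y‖) ∧
  ∀ p q : P d, ‖p.1‖ ≤ r → ‖q.1‖ ≤ r → ‖p.2‖ ≤ r → ‖q.2‖ ≤ r → ‖(lft γ p : P d)‖ ≤ C ∧ dist (lft γ p : P d) (lft γ q) ≤ C * dist p q ∧ ‖fderiv ℝ (lft γ : P d → P d) p‖ ≤ C

theorem ASGF_mono {Γ : Type} {d : ℕ} [Group Γ] [MulAction Γ (V d)] {r : ℝ} {n : ℕ} {γ : Γ} {C C' : ℝ}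
    (hC : C ≤ C') (h : ASGF_Q (d := d) r n γ C) : ASGF_Q (d := d) r n γ C' := by
  intro x hx
  obtain ⟨h1, h2, h3, h4⟩ := h x hx
  refine ⟨fun m hm => (h1 m hm).trans hC, fun u => (h2 u).trans (mul_le_mul_of_nonneg_right hC (norm_nonneg _)),
    fun y hy => (h3 y hy).trans (mul_le_mul_of_nonneg_right hC (norm_nonneg _)), fun p q a b c e => ?_⟩
  obtain ⟨h5, h6, h7⟩ := h4 p q a b c e
  exact ⟨h5.trans hC, h6.trans (mul_le_mul_of_nonneg_right hC dist_nonneg), h7.trans hC⟩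

theorem ASGF_one (hGLF : GLF_stmt) (d : ℕ) (Γ : Type) [Group Γ] [MulAction Γ (V d)]
    (hs : ∀ γ : Γ, ContDiff ℝ ∞ fun x : V d => γ • x) (r : ℝ) (n : ℕ) (γ : Γ) :
    ∃ C : ℝ, 1 ≤ C ∧ ASGF_Q (d := d) r n γ C := by
  obtain ⟨-, -, hl, hinv, -⟩ := hGLF d Γ hs
  have hcB : IsCompact (Metric.closedBall (0 : V d) r) := isCompact_closedBall _ _
  -- the derivatives of the action
  have h1 : ∀ m : ℕ, ∃ C : ℝ, ∀ x ∈ Metric.closedBall (0 : V d) r,
      ‖iteratedFDeriv ℝ m (fun y : V d => γ • y) x‖ ≤ C := fun m =>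
    hcB.exists_bound_of_continuousOn
      ((hs γ).continuous_iteratedFDeriv (m := m) (by exact_mod_cast le_top)).continuousOn
  choose c1 hc1 using h1
  have hfd : Continuous (fderiv ℝ (fun y : V d => γ • y)) := (hs γ).continuous_fderiv (by simp)
  obtain ⟨c3, hc3⟩ := hcB.exists_bound_of_continuousOn hfd.continuousOn
  have hfd2 : Continuous fun x : V d => fderiv ℝ (fun y : V d => γ⁻¹ • y) (γ • x) :=
    ((hs γ⁻¹).continuous_fderiv (by simp)).comp (hs γ).continuous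
  obtain ⟨c2, hc2⟩ := hcB.exists_bound_of_continuousOn hfd2.continuousOn
  -- the lift
  have hcP : IsCompact (Metric.closedBall (0 : V d) r ×ˢ Metric.closedBall (0 : V d) r) := hcB.prod hcB
  have hconvP : Convex ℝ (Metric.closedBall (0 : V d) r ×ˢ Metric.closedBall (0 : V d) r) :=
    (convex_closedBall _ _).prod (convex_closedBall _ _)
  obtain ⟨c4, hc4⟩ := hcP.exists_bound_of_continuousOn (hl γ).continuous.continuousOn
  have hfl : Continuous (fderiv ℝ (lft γ : P d → P d)) := (hl γ).continuous_fderiv (by simp)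
  obtain ⟨c5, hc5⟩ := hcP.exists_bound_of_continuousOn hfl.continuousOn
  have hS : ∀ m ≤ n, |c1 m| ≤ ∑ m ∈ Finset.range (n + 1), |c1 m| := fun m hm =>
    Finset.single_le_sum (f := fun m => |c1 m|) (fun i _ => abs_nonneg _) (Finset.mem_range.2 (by omega))
  have hS0 : 0 ≤ ∑ m ∈ Finset.range (n + 1), |c1 m| := Finset.sum_nonneg fun i _ => abs_nonneg _
  have a2 := abs_nonneg c2
  have a3 := abs_nonneg c3
  have a4 := abs_nonneg c4
  have a5 := abs_nonneg c5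
  have b2 := le_abs_self c2
  have b3 := le_abs_self c3
  have b4 := le_abs_self c4
  have b5 := le_abs_self c5
  set S := ∑ m ∈ Finset.range (n + 1), |c1 m| with hSdef
  refine ⟨1 + S + |c2| + |c3| + |c4| + |c5|, by linarith, fun x hx => ?_⟩
  have hxB : x ∈ Metric.closedBall (0 : V d) r := by rwa [mem_closedBall_zero_iff]
  refine ⟨fun m hm => ?_, fun u => ?_, fun y hy => ?_, fun p q hp1 hq1 hp2 hq2 => ?_⟩
  · have h2 := hc1 m x hxB
    have h3 := le_abs_self (c1 m)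
    have h4 := hS m hm
    linarith
  · have h2 : fderiv ℝ (fun y : V d => γ⁻¹ • y) (γ • x) (fderiv ℝ (fun y : V d => γ • y) x u) = u :=
      (hinv γ x u).1
    have h3 := hc2 x hxB
    calc ‖u‖ = ‖fderiv ℝ (fun y : V d => γ⁻¹ • y) (γ • x) (fderiv ℝ (fun y : V d => γ • y) x u)‖ := by rw [h2]
      _ ≤ ‖fderiv ℝ (fun y : V d => γ⁻¹ • y) (γ • x)‖ * ‖fderiv ℝ (fun y : V d => γ • y) x u‖ :=
        ContinuousLinearMap.le_opNorm _ _
      _ ≤ (1 + S + |c2| + |c3| + |c4| + |c5|) * ‖fderiv ℝ (fun y : V d => γ • y) x u‖ :=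
        mul_le_mul_of_nonneg_right (by linarith) (norm_nonneg _)
  · have hyB : y ∈ Metric.closedBall (0 : V d) r := by rwa [mem_closedBall_zero_iff]
    have h2 : ‖(fun y : V d => γ • y) x - (fun y : V d => γ • y) y‖ ≤ c3 * ‖x - y‖ :=
      (convex_closedBall (0 : V d) r).norm_image_sub_le_of_norm_fderiv_le (𝕜 := ℝ)
        (fun z _ => ((hs γ).differentiable (by simp)) z) (fun z hz => hc3 z hz) hyB hxB
    exact h2.trans (mul_le_mul_of_nonneg_right (by linarith) (norm_nonneg _))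
  · have hp : p ∈ Metric.closedBall (0 : V d) r ×ˢ Metric.closedBall (0 : V d) r :=
      ⟨by rwa [mem_closedBall_zero_iff], by rwa [mem_closedBall_zero_iff]⟩
    have hq : q ∈ Metric.closedBall (0 : V d) r ×ˢ Metric.closedBall (0 : V d) r :=
      ⟨by rwa [mem_closedBall_zero_iff], by rwa [mem_closedBall_zero_iff]⟩
    refine ⟨(hc4 p hp).trans (by linarith), ?_, (hc5 p hp).trans (by linarith)⟩
    rw [dist_eq_norm, dist_eq_norm]
    have h2 : ‖(lft γ p : P d) - lft γ q‖ ≤ c5 * ‖p - q‖ :=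
      hconvP.norm_image_sub_le_of_norm_fderiv_le (𝕜 := ℝ)
        (fun z _ => ((hl γ).differentiable (by simp)) z) (fun z hz => hc5 z hz) hq hp
    exact h2.trans (mul_le_mul_of_nonneg_right (by linarith) (norm_nonneg _))

theorem ASGF_proof (hGLF : GLF_stmt) : ASGF_stmt := by
  intro d Γ _ _ K hK r n
  have hfin : (SG Γ d r).Finite := by
    refine (hK.proper (Metric.closedBall (0 : V d) r) (isCompact_closedBall _ _)).subset ?_
    rintro γ ⟨x, hx, hγ⟩
    exact ⟨x, by rwa [mem_closedBall_zero_iff], by rwa [mem_closedBall_zero_iff]⟩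
  refine ⟨hfin, ?_, ?_⟩
  · rintro γ ⟨x, hx, hγ⟩
    exact ⟨γ • x, hγ, by rwa [inv_smul_smul]⟩
  · choose c hc1 hc using ASGF_one hGLF d Γ hK.smooth r n
    obtain ⟨C, hC⟩ := (hfin.image c).bddAbove
    refine ⟨max 1 C, le_max_left _ _, fun γ hγ => ?_⟩
    exact ASGF_mono ((hC (mem_image_of_mem c hγ)).trans (le_max_right _ _)) (hc γ)

end Pool.Agent.VD
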