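import Pool.Agent.helper11.VD.Spec3e

set_option autoImplicit false

/-!
Project VD (MP_07c750_an), row vd:BC1D (one frequency, Borel-Cantelli part 1).
-/

open scoped ContDiff Topology InnerProductSpace ENNReal ComplexConjugate
open MeasureTheory Filter Set

namespace Pool.Agent.VD

open Pool.Agent.RPQ (PN PJ UN upd IsOp nst)
open Pool.Agent.VQ (CH PS KZ perZ cmZ stZ wdZ InvS AdZ vz mZ wM qZ phZ rk)
open Pool.Agent.VN (aN)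
open Pool.Agent.VDE (UWLD FDX)

noncomputable section

/-- numbers -/
theorem BC1D_num (i : ℕ) (hi : 1 ≤ i) : Real.sqrt i ^ (-10 : ℝ) = 1 / ((i ^ 5 : ℕ) : ℝ) ∧ Real.sqrt i ^ (-4 : ℝ) = (i : ℝ) ^ (-2 : ℝ) := by
  have h0 : (0 : ℝ) < i := by exact_mod_cast hi
  have h1 : ∀ k : ℝ, Real.sqrt i ^ k = (i : ℝ) ^ (k / 2) := by
    intro k
    rw [Real.sqrt_eq_rpow, ← Real.rpow_mul h0.le]
    have e : 1 / 2 * k = k / 2 := by ring
    rw [e]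
  constructor
  · rw [h1]
    have e : (-10 : ℝ) / 2 = -((5 : ℕ) : ℝ) := by norm_num
    rw [e, Real.rpow_neg h0.le, Real.rpow_natCast]
    push_cast
    rw [one_div]
  · rw [h1]
    norm_num

/-- conformal factors compose -/
theorem BC1D_cfm {d : ℕ} (f g : V d → ℝ) (G : V d → V d →L[ℝ] V d) : cfm (fun x => f x - g x) (cfm g G) = cfm f G := by
  funext x
  unfold cfm
  rw [smul_smul, ← Real.exp_add, sub_add_cancel]

theorem BC1D_proof (hPRD : PRD_stmt) (hTLD : TLD_stmt) (hGFL : GFL_stmt) (hGIN : VN.GIN_stmt) (hRND : VQ.RND_stmt) (hRSB : VQ.RSB_stmt) : BC1D_stmt := by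
  intro d Γ _ _ K F0 r0 χ0 ch Cn k0 J p χ G0 k B hd hK hF hPU hch hFam hG0 h e hh he
  obtain ⟨Bs, R1, hR1, hT⟩ := hTLD d Γ K Cn k0 J p χ hK hFam
  obtain ⟨v0, hv0, hP2⟩ := hPRD d Γ K F0 r0 χ0 ch k B Bs Cn hd hK hF hPU hch h e hh he
  refine ⟨v0, hv0, ?_⟩
  intro T0 hT0
  obtain ⟨a, R0, C2, ha, hR0, hC2, hP3⟩ := hP2 T0 4 hT0 (by norm_num)
  obtain ⟨R2, hR2, hG⟩ := hGIN a C2 k0 ha
  refine ⟨⌈(max R0 (max R1 R2)) ^ 2⌉₊, ?_⟩
  intro i hi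
  have hsq : max R0 (max R1 R2) ≤ Real.sqrt i := by
    apply Real.le_sqrt_of_sq_le
    have h1 := Nat.le_ceil ((max R0 (max R1 R2)) ^ 2)
    have h2 : ((⌈(max R0 (max R1 R2)) ^ 2⌉₊ : ℕ) : ℝ) ≤ i := by exact_mod_cast hi
    exact h1.trans h2
  have hRa : R0 ≤ Real.sqrt i := (le_max_left _ _).trans hsq
  have hRb : R1 ≤ Real.sqrt i := ((le_max_left _ _).trans (le_max_right _ _)).trans hsq
  have hRc : R2 ≤ Real.sqrt i := ((le_max_right _ _).trans (le_max_right _ _)).trans hsq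
  have hi1 : 1 ≤ i := by
    rcases Nat.eq_zero_or_pos i with h0 | h0
    · exfalso
      rw [h0, Nat.cast_zero, Real.sqrt_zero] at hRa
      linarith
    · exact h0
  obtain ⟨hn10, hn4⟩ := BC1D_num i hi1
  obtain ⟨K', hK0, hK1, hK2, hK3, hK4, hK5, hK6, hK7⟩ := hG (Real.sqrt i) hRc
  obtain ⟨hT1, hT2⟩ := hT (Real.sqrt i) K' hRb hK2 hK3
  obtain ⟨T, hTc, r, v', hr, hv', hru, hrd⟩ := hRND J K' (i ^ 5) (Nat.one_le_pow _ _ hi1)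
  have hD : ∀ b : T, ∃ Φ : ℝ → P d → P d, Cls Γ K k B (cfm (bD χ K' (v' b)) G0) → IsFlow (cfm (bD χ K' (v' b)) G0) Φ := by
    intro b
    by_cases hb : Cls Γ K k B (cfm (bD χ K' (v' b)) G0)
    · obtain ⟨Φ, hΦ⟩ := hGFL d Γ K _ hK hb.met hb.isom
      exact ⟨Φ, fun _ => hΦ⟩
    · exact ⟨fun _ q => q, fun h1 => absurd h1 hb⟩
  choose Φ hΦ using hD
  refine ⟨K', fun ζ => v' (r ζ), hK2, hK3, fun ζ q => hv' (r ζ) q, ?_, ?_⟩
  · intro ζ hζ q hq1 hq2 hq3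
    rw [hn10]
    exact hrd ζ hζ q hq1 hq2 hq3
  have hE : ∀ b : T, PJ (J K') {ξ | Cls Γ K k B (cfm (bD χ K' (v' b)) G0) ∧ UWLD F0 (cfm (bD χ K' (v' b)) G0) (Φ b) h (e / 800) v0 T0 ∧
      ¬ GdD Γ Bs F0 h e (Real.sqrt i) (cfm (bD χ K' (v' b)) G0) (fun x => wD χ K' (v' b) x + aN K' * VF (χ K') ξ x)} ≤ ENNReal.ofReal ((i : ℝ) ^ (-2 : ℝ)) := by
    intro b
    by_cases hU : Cls Γ K k B (cfm (bD χ K' (v' b)) G0) ∧ UWLD F0 (cfm (bD χ K' (v' b)) G0) (Φ b) h (e / 800) v0 T0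
    · have h1 := hP3 (Real.sqrt i) (rk K') (aN K') (J K') (p K') (χ K') (wD χ K' (v' b)) (cfm (bD χ K' (v' b)) G0) (Φ b) hRa (Real.exp_pos _) hK5 hK6 (hFam.net K' hK0) hU.1 (hΦ b hU.1) hU.2
        (fun ξ hξ => hT1 (v' b) ξ (hv' b) hξ)
      rw [hn4] at h1
      refine le_trans (measure_mono ?_) h1
      intro ξ hξ
      exact hξ.2.2
    · have h1 : {ξ : Fin (J K') → ℝ | Cls Γ K k B (cfm (bD χ K' (v' b)) G0) ∧ UWLD F0 (cfm (bD χ K' (v' b)) G0) (Φ b) h (e / 800) v0 T0 ∧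
          ¬ GdD Γ Bs F0 h e (Real.sqrt i) (cfm (bD χ K' (v' b)) G0) (fun x => wD χ K' (v' b) x + aN K' * VF (χ K') ξ x)} = ∅ := by
        ext ξ
        constructor
        · intro hξ
          exact absurd ⟨hξ.1, hξ.2.1⟩ hU
        · intro hξ
          exact absurd hξ (Set.notMem_empty _)
      rw [h1, measure_empty]
      exact bot_le
  have hfin := hRSB K' (J K') T r (ENNReal.ofReal ((i : ℝ) ^ (-2 : ℝ))) (fun b => {ξ | Cls Γ K k B (cfm (bD χ K' (v' b)) G0) ∧ UWLD F0 (cfm (bD χ K' (v' b)) G0) (Φ b) h (e / 800) v0 T0 ∧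
      ¬ GdD Γ Bs F0 h e (Real.sqrt i) (cfm (bD χ K' (v' b)) G0) (fun x => wD χ K' (v' b) x + aN K' * VF (χ K') ξ x)}) hr hru hE
  refine le_trans (measure_mono ?_) hfin
  intro ζ hζ
  obtain ⟨hζ1, hζP, hζ2, μ, φ, hμ, hμ1, hφ, hlt⟩ := hζ
  refine ⟨hζP, hζ2 (Φ (r ζ)) (hΦ (r ζ) hζP), ?_⟩
  intro hGd
  obtain ⟨hs, hclose⟩ := hT2 ζ (v' (r ζ)) hζ1 (hv' (r ζ)) (fun q hq1 hq2 hq3 => by
    rw [hn10]
    exact hrd ζ hζ1 q hq1 hq2 hq3)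
  have hφ' : Eigenfunction Γ (cfm (fun x => rD χ ζ x - bD χ K' (v' (r ζ)) x) (cfm (bD χ K' (v' (r ζ))) G0)) μ φ := by
    rw [BC1D_cfm]
    exact hφ
  have h3 := hGd (fun x => rD χ ζ x - bD χ K' (v' (r ζ)) x) μ φ hs hclose hμ hμ1 hφ'
  exact absurd hlt (not_lt.mpr h3)

end

end Pool.Agent.VD
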