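import Pool.Agent.helper80.VD.SpecF

/-!
# Row vd:FUL (MP_07c750_an): uniform local existence
-/

set_option autoImplicit false

open scoped ContDiff Topology InnerProductSpace
open MeasureTheory Filter Set

namespace Pool.Agent.VD

theorem FUL_proof (hCFL : CRO.CFL_stmt) : FUL_stmt := by
  intro F _ _ _ f hf L hL
  obtain ⟨R, hR⟩ := hL.isBounded.subset_closedBall (0 : F)
  let b : ContDiffBump (0 : F) := ⟨|R| + 1, |R| + 2, by positivity, by linarith⟩
  have hbs : ContDiff ℝ ∞ (b : F → ℝ) := b.contDiff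
  have hg : ContDiff ℝ ∞ (fun x => (b x : ℝ) • f x) := hbs.smul hf
  have hgc : HasCompactSupport (fun x => (b x : ℝ) • f x) := b.hasCompactSupport.smul_right
  obtain ⟨Φ, hΦ⟩ := hCFL F (fun x => (b x : ℝ) • f x) (by exact_mod_cast contDiff_infty.1 hg 2) hgc
  obtain ⟨M, hM⟩ := hgc.exists_bound_of_continuous hg.continuous
  have hM0 : 0 ≤ M := (norm_nonneg _).trans (hM 0)
  refine ⟨1 / (M + 1), by positivity, fun x hx => ⟨fun t => Φ t x, hΦ.zero x, fun t ht => ?_⟩⟩
  have h1 : ‖Φ t x - Φ 0 x‖ ≤ M * ‖t - 0‖ :=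
    Convex.norm_image_sub_le_of_norm_hasDerivWithin_le (f := fun s => Φ s x)
      (f' := fun s => (b (Φ s x) : ℝ) • f (Φ s x)) (s := Set.univ)
      (fun s _ => (hΦ.ode x s).hasDerivWithinAt) (fun s _ => hM _) convex_univ (mem_univ _) (mem_univ _)
  rw [hΦ.zero x, sub_zero, Real.norm_eq_abs] at h1
  have h2 : M * |t| ≤ 1 := by
    have h3 : M * |t| ≤ (M + 1) * (1 / (M + 1)) := mul_le_mul (by linarith) ht.le (abs_nonneg t) (by positivity)
    rwa [mul_one_div_cancel (by positivity)] at h3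
  have h4 : Φ t x ∈ Metric.closedBall (0 : F) b.rIn := by
    rw [mem_closedBall_zero_iff]
    have h5 : ‖x‖ ≤ R := by
      have := hR hx
      rwa [mem_closedBall_zero_iff] at this
    calc ‖Φ t x‖ = ‖(Φ t x - x) + x‖ := by rw [sub_add_cancel]
      _ ≤ ‖Φ t x - x‖ + ‖x‖ := norm_add_le _ _
      _ ≤ 1 + R := add_le_add (h1.trans h2) h5
      _ ≤ |R| + 1 := by linarith [le_abs_self R]
  have h6 := hΦ.ode x t
  simp only [b.one_of_mem_closedBall h4, one_smul] at h6
  exact h6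

end Pool.Agent.VD
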