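import Pool.Agent.helper93.VD.SpecB4a

/-!
# Row vd:LDV (MP_07c750_an): large deviations for the measure
-/

set_option autoImplicit false

open MeasureTheory Filter Set Topology
open scoped ENNReal

namespace Pool.Agent.VDL

open Pool.Agent.VDE (BB av)
open Pool.Agent.VD (W Z)

theorem LDV_proof (hLNT : LNT_stmt) (hLPN : LPN_stmt) (hLCN : LCN_stmt) : LDV_stmt := by
  intro C e hC he he1
  set A1 : ℝ := C ^ 3 * (C + 1) with hA1
  have hA1p : 1 ≤ A1 := by
    have h1 : 1 ≤ C ^ 3 := one_le_pow₀ hC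
    nlinarith
  set D1 : ℝ := Real.exp 1 * A1 with hD1
  have hexp1 : 1 ≤ Real.exp 1 := Real.one_le_exp (by norm_num)
  have hD1p : 1 ≤ D1 := by
    rw [hD1]
    nlinarith
  have hD10 : 0 < D1 := by linarith
  set z : ℝ := D1 ^ (4 / e) with hz
  have hz1 : 1 ≤ z := Real.one_le_rpow hD1p (by positivity)
  have hz0 : 0 < z := by linarith
  refine ⟨z⁻¹, inv_pos.2 hz0, ?_⟩
  intro S _ _ _ _ μ d f ε hV h M T0 hW x T hT
  have hT0 := hW.hT
  have hTpos : 0 < T := lt_of_lt_of_le (by positivity) hT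
  set n : ℕ := ⌊T / T0⌋₊ with hn
  have hTT : 4 ≤ T / T0 := by
    rw [le_div_iff₀ hT0]
    have h1 : 4 * T0 ≤ 4 * T0 / e := by
      rw [le_div_iff₀ he]
      nlinarith
    linarith
  have hn1 : (n : ℝ) ≤ T / T0 := Nat.floor_le (by linarith)
  have hn2 : T / T0 < n + 1 := Nat.lt_floor_add_one _
  have hn4 : 1 ≤ n := by
    have h1 : (3 : ℝ) < n := by linarith
    have h2 : 3 < n := by exact_mod_cast h1
    omega
  have hnp : (0 : ℝ) < n := by exact_mod_cast hn4
  have hnT : (n : ℝ) * T0 ≤ T := by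
    rwa [le_div_iff₀ hT0] at hn1
  have hnT0 : 0 < (n : ℝ) * T0 := by positivity
  have hTn : T - n * T0 ≤ T0 := by
    rw [div_lt_iff₀ hT0] at hn2
    linarith
  -- the bad set
  set B : Set S := {w | d x w ≤ ε ∧ e ≤ |av f h (n * T0) w - M|} with hB
  have hsub : {w | d x w ≤ ε ∧ 2 * e ≤ |av f h T w - M|} ⊆ B := by
    rintro w ⟨hw1, hw2⟩
    refine ⟨hw1, ?_⟩
    have h1 := (hLCN S μ d f ε C hV h M e T0 he hT0 hW.hc hW.hb hW.hM).2 T (n * T0) w hnT0 hnT
    have h2 : 2 * (T - n * T0) / T ≤ e := by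
      rw [div_le_iff₀ hTpos]
      have h3 : 4 * T0 ≤ T * e := by
        rwa [div_le_iff₀ he] at hT
      nlinarith
    have h3 : |av f h T w - M| ≤ |av f h T w - av f h (n * T0) w| + |av f h (n * T0) w - M| := abs_sub_le _ _ _
    linarith
  obtain ⟨E, hEB, hEc, hEs, hEm⟩ := (hLNT S S μ d f ε C hV).1 (n * T0) (2 * ε) id B (by linarith [hV.ep])
  have hcov : B ⊆ ⋃ w ∈ E, BB d f (n * T0) w (16 * ε) := by
    intro w hw
    obtain ⟨y, hy, hyw⟩ := hEm w hw
    refine mem_biUnion hy ?_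
    intro s hs
    exact (hyw s hs).trans (by linarith [hV.ep])
  have hsum : μ B ≤ ∑' w : E, μ (BB d f (n * T0) w (16 * ε)) := by
    calc μ B ≤ μ (⋃ w ∈ E, BB d f (n * T0) w (16 * ε)) := measure_mono hcov
      _ ≤ ∑' w : E, μ (BB d f (n * T0) w (16 * ε)) := measure_biUnion_le μ hEc _
  have hpn := hLPN S μ d f ε C hV h M e T0 z⁻¹ z hW hz1 n x E hEc (fun w hw => (hEB hw).1) hEs
  rw [mul_inv_cancel₀ hz0.ne'] at hpn
  have hlow : ENNReal.ofReal (D1 ^ n) * ∑' w : E, μ (BB d f (n * T0) w (16 * ε)) ≤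
      ENNReal.ofReal (C * A1 ^ n) := by
    refine le_trans ?_ hpn
    rw [← ENNReal.tsum_mul_left]
    refine ENNReal.tsum_le_tsum fun w => ?_
    refine mul_le_mul_left (ENNReal.ofReal_le_ofReal ?_) _
    have h1 := (hLCN S μ d f ε C hV h M e T0 he hT0 hW.hc hW.hb hW.hM).1 n w hn4 (hEB w.2).2
    calc D1 ^ n = D1 ^ ((4 / e) * (e * n / 4)) := by
          rw [← Real.rpow_natCast]
          congr 1
          field_simp
      _ = z ^ (e * n / 4) := by rw [hz, Real.rpow_mul hD10.le]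
      _ ≤ z ^ ((nb f h M e T0 n w : ℕ) : ℝ) := Real.rpow_le_rpow_of_exponent_le hz1 h1
      _ = z ^ nb f h M e T0 n w := Real.rpow_natCast _ _
  have hfin : ∑' w : E, μ (BB d f (n * T0) w (16 * ε)) ≤ ENNReal.ofReal (C * Real.exp (-n)) := by
    have h1 : ENNReal.ofReal ((D1 ^ n)⁻¹) * ENNReal.ofReal (D1 ^ n) = 1 := by
      rw [← ENNReal.ofReal_mul (by positivity), inv_mul_cancel₀ (by positivity), ENNReal.ofReal_one]
    calc ∑' w : E, μ (BB d f (n * T0) w (16 * ε))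
        = ENNReal.ofReal ((D1 ^ n)⁻¹) * (ENNReal.ofReal (D1 ^ n) * ∑' w : E, μ (BB d f (n * T0) w (16 * ε))) := by
          rw [← mul_assoc, h1, one_mul]
      _ ≤ ENNReal.ofReal ((D1 ^ n)⁻¹) * ENNReal.ofReal (C * A1 ^ n) := mul_le_mul_right hlow _
      _ = ENNReal.ofReal (C * Real.exp (-n)) := by
          rw [← ENNReal.ofReal_mul (by positivity)]
          congr 1
          rw [hD1, mul_pow, Real.exp_neg, ← Real.exp_nat_mul, mul_one]
          have h2 : A1 ^ n ≠ 0 := by positivity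
          have h3 : Real.exp n ≠ 0 := (Real.exp_pos _).ne'
          field_simp
  calc μ {w | d x w ≤ ε ∧ 2 * e ≤ |av f h T w - M|} ≤ μ B := measure_mono hsub
    _ ≤ _ := hsum
    _ ≤ _ := hfin
    _ ≤ ENNReal.ofReal (C * Real.exp (1 - T / T0)) := by
      apply ENNReal.ofReal_le_ofReal
      apply mul_le_mul_of_nonneg_left _ (by linarith)
      apply Real.exp_le_exp.2
      linarith

end Pool.Agent.VDL
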