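import Pool.Agent.helper99.VD.SpecU

/-!
# Row vd:PIGA (MP_07c750_an): pigeonhole
-/

set_option autoImplicit false

namespace Pool.Agent.VD

theorem PIGA_proof : PIGA_stmt := by
  intro q L A β _ B f hB hf hA
  have h1 : B.card * (L + 1) < A.card := lt_of_le_of_lt (Nat.mul_le_mul_right _ hB) hA
  obtain ⟨b, -, hb⟩ := Finset.exists_lt_card_fiber_of_mul_lt_card_of_maps_to hf h1
  have hne : (A.filter fun x => f x = b).Nonempty := by
    rw [← Finset.card_pos]
    omega
  have hmin := Finset.min'_mem _ hne
  have hmax := Finset.max'_mem _ hne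
  have h2 : (A.filter fun x => f x = b) ⊆
      Finset.Icc ((A.filter fun x => f x = b).min' hne) ((A.filter fun x => f x = b).max' hne) := by
    intro x hx
    rw [Finset.mem_Icc]
    exact ⟨Finset.min'_le _ _ hx, Finset.le_max' _ _ hx⟩
  have h3 := Finset.card_le_card h2
  rw [Nat.card_Icc] at h3
  rw [Finset.mem_filter] at hmin hmax
  exact ⟨_, hmin.1, _, hmax.1, hmin.2.trans hmax.2.symm, by omega⟩

end Pool.Agent.VD
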