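import Pool.Agent.helper84.VD.SpecB2
import Pool.Agent.helper80.VD.SpecF

/-!
# Row vd:SFD (MP_07c750_an): decomposition in a frame
-/

set_option autoImplicit false

open scoped ContDiff Topology InnerProductSpace ENNReal
open MeasureTheory Filter Set

namespace Pool.Agent.VD

theorem SFD_proof (hGIN : GIN_stmt) : SFD_stmt := by
  intro m G z e hG hz he
  obtain ⟨hinv, hsym, -, -, -⟩ := hGIN (m + 1) G hG
  have h1 : ⟪IG G z.1 z.2, z.2⟫_ℝ = 1 := Real.sqrt_eq_one.1 hz
  have hv1 : ⟪z.2, vel G z⟫_ℝ = 1 := by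
    rw [real_inner_comm]
    exact h1
  have hGv : G z.1 (vel G z) = z.2 := (hinv z.1 z.2).2
  have hee : ∀ a : W m, ContinuousLinearMap.adjoint e (G z.1 (e a)) = a := by
    intro a
    apply ext_inner_right ℝ
    intro b
    rw [ContinuousLinearMap.adjoint_inner_left]
    exact he.on a b
  have hez : ContinuousLinearMap.adjoint e z.2 = 0 := by
    apply ext_inner_right ℝ
    intro b
    rw [ContinuousLinearMap.adjoint_inner_left, inner_zero_left]
    exact he.ort b
  let L : (W m × ℝ) →ₗ[ℝ] V (m + 1) :=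
    { toFun := fun q => e q.1 + q.2 • vel G z
      map_add' := by
        intro p q
        show e (p.1 + q.1) + (p.2 + q.2) • vel G z = (e p.1 + p.2 • vel G z) + (e q.1 + q.2 • vel G z)
        rw [map_add, add_smul]
        abel
      map_smul' := by
        intro c q
        show e (c • q.1) + (c * q.2) • vel G z = c • (e q.1 + q.2 • vel G z)
        rw [map_smul, mul_smul, smul_add] }
  have hL : ∀ (a : W m) (s : ℝ), L (a, s) = e a + s • vel G z := fun a s => rfl
  have hLa : ∀ (a : W m) (s : ℝ), ContinuousLinearMap.adjoint e (G z.1 (L (a, s))) = a := by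
    intro a s
    rw [hL, map_add, map_smul, hGv, map_add, map_smul, hez, smul_zero, add_zero, hee]
  have hLs : ∀ (a : W m) (s : ℝ), ⟪z.2, L (a, s)⟫_ℝ = s := by
    intro a s
    rw [hL, inner_add_right, inner_smul_right, he.ort, hv1]
    ring
  have hinj : Function.Injective L := by
    rintro ⟨a, s⟩ ⟨b, t⟩ hab
    have h2 := hLa a s
    have h3 := hLs a s
    rw [hab, hLa] at h2
    rw [hab, hLs] at h3
    rw [h2, h3]
  have hfr : Module.finrank ℝ (W m × ℝ) = Module.finrank ℝ (V (m + 1)) := by
    rw [Module.finrank_prod, Module.finrank_self, finrank_euclideanSpace_fin, finrank_euclideanSpace_fin]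
  have hsurj : Function.Surjective L :=
    (LinearMap.injective_iff_surjective_of_finrank_eq_finrank hfr).1 hinj
  have hA : ∀ u : V (m + 1), u = e (ContinuousLinearMap.adjoint e (G z.1 u)) + ⟪z.2, u⟫_ℝ • vel G z := by
    intro u
    obtain ⟨⟨a, s⟩, rfl⟩ := hsurj u
    rw [hLa, hLs, hL]
  refine ⟨hA, fun η => ?_, hee, hez, hv1, hGv, fun u => hinv z.1 u⟩
  have h2 := congrArg (G z.1) (hA (IG G z.1 η))
  rw [(hinv z.1 η).2, map_add, map_smul, hGv, ← hsym, real_inner_comm] at h2
  exact h2

end Pool.Agent.VD
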