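import Pool.Agent.helper11.VD.SpecR

/-!
# Row vd:SRD (MP_07c750_an): term by term differentiation
-/

set_option autoImplicit false

open scoped ContDiff Topology InnerProductSpace ENNReal
open MeasureTheory Filter Set

namespace Pool.Agent.VD

open Pool.Agent.RPQ (PN PJ UN upd)
open Pool.Agent.VQ (rk)
open Pool.Agent.VN (aN)

theorem SRD_loc (d : ℕ) (v : ℕ → V d → ℝ) (hv : ∀ k, ContDiff ℝ ∞ (v k))
    (hc : ∀ L : Set (V d), IsCompact L → ∃ c : ℕ → ℕ → ℝ, (∀ n, Summable (c n)) ∧ ∀ n k, DK L n (v k) (c n k))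
    (w₀ : V d) : ContDiffAt ℝ ∞ (fun x => ∑' k, v k x) w₀ ∧
      ∀ n : ℕ, iteratedFDeriv ℝ n (fun x => ∑' k, v k x) w₀ = ∑' k, iteratedFDeriv ℝ n (v k) w₀ := by
  let b : ContDiffBump w₀ := ⟨1, 2, by norm_num, by norm_num⟩
  obtain ⟨c, hcs, hcb⟩ := hc (Metric.closedBall w₀ 2) (isCompact_closedBall _ _)
  have hball : tsupport (b : V d → ℝ) ⊆ Metric.closedBall w₀ 2 := by
    rw [b.tsupport_eq]
  have hc0 : ∀ n k, 0 ≤ c n k := fun n k =>
    (norm_nonneg _).trans (hcb n k w₀ (Metric.mem_closedBall_self (by norm_num)))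
  have hbs : ContDiff ℝ ∞ (b : V d → ℝ) := b.contDiff
  have hf : ∀ k, ContDiff ℝ ∞ (fun w : V d => b w * v k w) := fun k => hbs.mul (hv k)
  have hM : ∀ i : ℕ, ∃ M : ℝ, 0 ≤ M ∧ ∀ w, ‖iteratedFDeriv ℝ i (b : V d → ℝ) w‖ ≤ M := by
    intro i
    have h1 : HasCompactSupport (iteratedFDeriv ℝ i (b : V d → ℝ)) := b.hasCompactSupport.iteratedFDeriv i
    have h2 : Continuous (iteratedFDeriv ℝ i (b : V d → ℝ)) :=
      hbs.continuous_iteratedFDeriv (by exact_mod_cast le_top)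
    obtain ⟨M, hM⟩ := h1.exists_bound_of_continuous h2
    exact ⟨M, (norm_nonneg _).trans (hM w₀), hM⟩
  choose M hM0 hM using hM
  have hbound : ∀ (n k : ℕ) (w : V d), ((n : ℕ∞) ≤ ⊤) → ‖iteratedFDeriv ℝ n (fun w : V d => b w * v k w) w‖ ≤
      ∑ i ∈ Finset.range (n + 1), (n.choose i : ℝ) * M i * c (n - i) k := by
    intro n k w _
    by_cases hw : w ∈ tsupport (b : V d → ℝ)
    · have h3 := norm_iteratedFDeriv_mul_le (𝕜 := ℝ) (A := ℝ) (N := ∞)
        (f := fun w : V d => (b w : ℝ)) (g := v k) hbs (hv k) w (n := n) (by exact_mod_cast le_top)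
      refine h3.trans ?_
      apply Finset.sum_le_sum
      intro i _
      have h6 := hcb (n - i) k w (hball hw)
      have h7 := hM i w
      have h8 : (n.choose i : ℝ) * ‖iteratedFDeriv ℝ i (b : V d → ℝ) w‖ ≤ (n.choose i : ℝ) * M i :=
        mul_le_mul_of_nonneg_left h7 (Nat.cast_nonneg _)
      exact mul_le_mul h8 h6 (norm_nonneg _) (mul_nonneg (Nat.cast_nonneg _) (hM0 i))
    · have h2 : (fun w : V d => b w * v k w) =ᶠ[𝓝 w] fun _ => 0 := by
        have h3 : (b : V d → ℝ) =ᶠ[𝓝 w] 0 := notMem_tsupport_iff_eventuallyEq.1 hw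
        filter_upwards [h3] with u hu
        rw [hu]
        simp
      rw [(h2.iteratedFDeriv ℝ n).eq_of_nhds]
      have h4 : ‖iteratedFDeriv ℝ n (fun _ : V d => (0 : ℝ)) w‖ = 0 := by
        rw [iteratedFDeriv_fun_zero]
        simp
      rw [h4]
      apply Finset.sum_nonneg
      intro i _
      have := hM0 i
      have := hc0 (n - i) k
      positivity
  have hsm : ∀ n : ℕ, ((n : ℕ∞) ≤ ⊤) → Summable (fun k => ∑ i ∈ Finset.range (n + 1), (n.choose i : ℝ) * M i * c (n - i) k) := by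
    intro n _
    apply summable_sum
    intro i _
    exact (hcs (n - i)).mul_left _
  have hsum := fun (m : ℕ) => iteratedFDeriv_tsum (𝕜 := ℝ) (N := ⊤) (f := fun (k : ℕ) (w : V d) => b w * v k w)
    (v := fun n k => ∑ i ∈ Finset.range (n + 1), (n.choose i : ℝ) * M i * c (n - i) k) hf hsm hbound
    (k := m) (by exact_mod_cast le_top)
  have hcd : ContDiff ℝ ∞ (fun w : V d => ∑' k, b w * v k w) := contDiff_tsum (𝕜 := ℝ) (N := ⊤) hf hsm hbound
  have heq : (fun z => ∑' k, v k z) =ᶠ[𝓝 w₀] fun w : V d => ∑' k, b w * v k w := by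
    filter_upwards [b.eventuallyEq_one] with w hw
    show ∑' k, v k w = ∑' k, b w * v k w
    rw [hw]
    simp
  have heq2 : ∀ k, (fun w : V d => b w * v k w) =ᶠ[𝓝 w₀] v k := by
    intro k
    filter_upwards [b.eventuallyEq_one] with w hw
    rw [hw]
    simp
  refine ⟨hcd.contDiffAt.congr_of_eventuallyEq heq, fun m => ?_⟩
  rw [(heq.iteratedFDeriv ℝ m).eq_of_nhds, hsum m]
  refine tsum_congr fun k => ?_
  exact ((heq2 k).iteratedFDeriv ℝ m).eq_of_nhds

theorem SRD_proof : SRD_stmt := by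
  intro d v hv hc
  refine ⟨?_, ?_, ?_⟩
  · rw [contDiff_iff_contDiffAt]
    exact fun x => (SRD_loc d v hv hc x).1
  · intro x
    obtain ⟨c, hcs, hcb⟩ := hc {x} isCompact_singleton
    refine Summable.of_norm_bounded (hcs 0) fun k => ?_
    have h1 := hcb 0 k x (mem_singleton x)
    rwa [norm_iteratedFDeriv_zero] at h1
  · exact fun x => (SRD_loc d v hv hc x).2

end Pool.Agent.VD
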