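import Pool.Agent.helper94.VD.SpecDPR

set_option autoImplicit false

/-!
Project VD (MP_07c750_an), block B3, row vd:DBA (determinants of block maps).
-/

open scoped ContDiff Topology InnerProductSpace ENNReal
open MeasureTheory Filter Set

namespace Pool.Agent.VD

noncomputable section

/-- the factorisation and the determinant -/
theorem DBA_det (m : ℕ) (ι : (W m × ℝ) ≃L[ℝ] W (m + 1)) (X : W m →L[ℝ] W m) (t : ℝ) (E : W (m + 1) →L[ℝ] W (m + 1)) (A A' : W m × ℝ →L[ℝ] W (m + 1)) (B : W (m + 1) →L[ℝ] W m × ℝ)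
    (h1 : ∀ η, A (B η) = η) (h2 : ∀ (w : W m) (s : ℝ), E (A (w, s)) = A' (X w, t * s)) :
    E.det = (A'.comp (ι.symm : W (m + 1) →L[ℝ] W m × ℝ)).det * (X.det * t) * ((ι : W m × ℝ →L[ℝ] W (m + 1)).comp B).det := by
  have hE : (E : W (m + 1) →ₗ[ℝ] W (m + 1)) = ((A'.comp (ι.symm : W (m + 1) →L[ℝ] W m × ℝ) : W (m + 1) →L[ℝ] W (m + 1)) : W (m + 1) →ₗ[ℝ] W (m + 1)) ∘ₗ
      (((ι.toLinearEquiv : (W m × ℝ) ≃ₗ[ℝ] W (m + 1)) : (W m × ℝ) →ₗ[ℝ] W (m + 1)) ∘ₗ (LinearMap.prodMap (X : W m →ₗ[ℝ] W m) (t • (LinearMap.id : ℝ →ₗ[ℝ] ℝ))) ∘ₗ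
        ((ι.toLinearEquiv.symm : W (m + 1) ≃ₗ[ℝ] (W m × ℝ)) : W (m + 1) →ₗ[ℝ] (W m × ℝ))) ∘ₗ
      (((ι : W m × ℝ →L[ℝ] W (m + 1)).comp B : W (m + 1) →L[ℝ] W (m + 1)) : W (m + 1) →ₗ[ℝ] W (m + 1)) := by
    apply LinearMap.ext
    intro η
    show E η = A' (ι.symm (ι (X (ι.symm (ι (B η))).1, t • (ι.symm (ι (B η))).2)))
    rw [ι.symm_apply_apply, ι.symm_apply_apply]
    have h3 := h2 (B η).1 (B η).2
    rw [Prod.mk.eta, h1] at h3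
    exact h3
  unfold ContinuousLinearMap.det
  rw [hE, LinearMap.det_comp, LinearMap.det_comp, LinearMap.det_conj, LinearMap.det_prodMap, LinearMap.det_smul, LinearMap.det_id, Module.finrank_self, pow_one, mul_one]
  ring

theorem DBA_proof (hLDE : LDE_stmt) : DBA_stmt := by
  intro m M hM
  have hfr : Module.finrank ℝ (W m × ℝ) = Module.finrank ℝ (W (m + 1)) := by
    rw [Module.finrank_prod, Module.finrank_self]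
    simp
  have ι : (W m × ℝ) ≃L[ℝ] W (m + 1) := ContinuousLinearEquiv.ofFinrankEq hfr
  have hn1 : 0 ≤ ‖(ι : W m × ℝ →L[ℝ] W (m + 1))‖ := norm_nonneg _
  have hn2 : 0 ≤ ‖(ι.symm : W (m + 1) →L[ℝ] W m × ℝ)‖ := norm_nonneg _
  obtain ⟨K, hK⟩ : ∃ K, K = M * (‖(ι : W m × ℝ →L[ℝ] W (m + 1))‖ + ‖(ι.symm : W (m + 1) →L[ℝ] W m × ℝ)‖ + 1) := ⟨_, rfl⟩
  have hK1 : 1 ≤ K := by rw [hK]; nlinarith
  have hKa : M * ‖(ι : W m × ℝ →L[ℝ] W (m + 1))‖ ≤ K := by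
    rw [hK]
    apply mul_le_mul_of_nonneg_left _ (by linarith)
    linarith
  have hKb : M * ‖(ι.symm : W (m + 1) →L[ℝ] W m × ℝ)‖ ≤ K := by
    rw [hK]
    apply mul_le_mul_of_nonneg_left _ (by linarith)
    linarith
  obtain ⟨K', hK', hL⟩ := hLDE (m + 1) K hK1
  refine ⟨K' ^ 2, one_le_pow₀ hK', ?_⟩
  intro X t E A A' B B' hAB hBA hAB' hBA' hA hA' hB hB' hE
  -- bounds of the two outer factors
  have hone : ∀ (C : W m × ℝ →L[ℝ] W (m + 1)) (D : W (m + 1) →L[ℝ] W m × ℝ), (∀ u, C (D u) = u) → (∀ q, D (C q) = q) → ‖C‖ ≤ M → ‖D‖ ≤ M →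
      (∀ x, ‖x‖ ≤ K * ‖(C.comp (ι.symm : W (m + 1) →L[ℝ] W m × ℝ)) x‖ ∧ ‖(C.comp (ι.symm : W (m + 1) →L[ℝ] W m × ℝ)) x‖ ≤ K * ‖x‖) ∧
      (∀ x, ‖x‖ ≤ K * ‖((ι : W m × ℝ →L[ℝ] W (m + 1)).comp D) x‖ ∧ ‖((ι : W m × ℝ →L[ℝ] W (m + 1)).comp D) x‖ ≤ K * ‖x‖) := by
    intro C D hCD hDC hC hD
    have hM0 : 0 ≤ M := by linarith
    -- the map `C ι⁻¹` and its inverse `ι D`
    have e1 : ∀ x, ‖(C.comp (ι.symm : W (m + 1) →L[ℝ] W m × ℝ)) x‖ ≤ K * ‖x‖ := by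
      intro x
      have h1 : ‖C (ι.symm x)‖ ≤ ‖C‖ * ‖(ι.symm : W (m + 1) →L[ℝ] W m × ℝ) x‖ := C.le_opNorm _
      have h2 : ‖(ι.symm : W (m + 1) →L[ℝ] W m × ℝ) x‖ ≤ ‖(ι.symm : W (m + 1) →L[ℝ] W m × ℝ)‖ * ‖x‖ := ContinuousLinearMap.le_opNorm _ _
      calc ‖C (ι.symm x)‖ ≤ ‖C‖ * ‖(ι.symm : W (m + 1) →L[ℝ] W m × ℝ) x‖ := h1
        _ ≤ M * (‖(ι.symm : W (m + 1) →L[ℝ] W m × ℝ)‖ * ‖x‖) := mul_le_mul hC h2 (norm_nonneg _) hM0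
        _ = (M * ‖(ι.symm : W (m + 1) →L[ℝ] W m × ℝ)‖) * ‖x‖ := by ring
        _ ≤ K * ‖x‖ := mul_le_mul_of_nonneg_right hKb (norm_nonneg _)
    have e2 : ∀ x, ‖((ι : W m × ℝ →L[ℝ] W (m + 1)).comp D) x‖ ≤ K * ‖x‖ := by
      intro x
      have h1 : ‖(ι : W m × ℝ →L[ℝ] W (m + 1)) (D x)‖ ≤ ‖(ι : W m × ℝ →L[ℝ] W (m + 1))‖ * ‖D x‖ := ContinuousLinearMap.le_opNorm _ _
      have h2 : ‖D x‖ ≤ ‖D‖ * ‖x‖ := D.le_opNorm _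
      have h3 : ‖D x‖ ≤ M * ‖x‖ := h2.trans (mul_le_mul_of_nonneg_right hD (norm_nonneg _))
      calc ‖(ι : W m × ℝ →L[ℝ] W (m + 1)) (D x)‖ ≤ ‖(ι : W m × ℝ →L[ℝ] W (m + 1))‖ * ‖D x‖ := h1
        _ ≤ ‖(ι : W m × ℝ →L[ℝ] W (m + 1))‖ * (M * ‖x‖) := mul_le_mul_of_nonneg_left h3 hn1
        _ = (M * ‖(ι : W m × ℝ →L[ℝ] W (m + 1))‖) * ‖x‖ := by ring
        _ ≤ K * ‖x‖ := mul_le_mul_of_nonneg_right hKa (norm_nonneg _)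
    have i1 : ∀ x, ((ι : W m × ℝ →L[ℝ] W (m + 1)).comp D) ((C.comp (ι.symm : W (m + 1) →L[ℝ] W m × ℝ)) x) = x := by
      intro x
      show ι (D (C (ι.symm x))) = x
      rw [hDC, ι.apply_symm_apply]
    have i2 : ∀ x, (C.comp (ι.symm : W (m + 1) →L[ℝ] W m × ℝ)) (((ι : W m × ℝ →L[ℝ] W (m + 1)).comp D) x) = x := by
      intro x
      show C (ι.symm (ι (D x))) = x
      rw [ι.symm_apply_apply, hCD]
    refine ⟨fun x => ⟨?_, e1 x⟩, fun x => ⟨?_, e2 x⟩⟩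
    · have h := e2 ((C.comp (ι.symm : W (m + 1) →L[ℝ] W m × ℝ)) x)
      rw [i1] at h
      exact h
    · have h := e1 (((ι : W m × ℝ →L[ℝ] W (m + 1)).comp D) x)
      rw [i2] at h
      exact h
  obtain ⟨p1, p2, p3, -⟩ := hL (A'.comp (ι.symm : W (m + 1) →L[ℝ] W m × ℝ)) _ (hone A' B' hAB' hBA' hA' hB').1 (hone A' B' hAB' hBA' hA' hB').1
  obtain ⟨q1, q2, q3, -⟩ := hL ((ι : W m × ℝ →L[ℝ] W (m + 1)).comp B) _ (hone A B hAB hBA hA hB).2 (hone A B hAB hBA hA hB).2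
  have hdet := DBA_det m ι X t E A A' B hAB hE
  have habs : |E.det| = |(A'.comp (ι.symm : W (m + 1) →L[ℝ] W m × ℝ)).det| * (|X.det| * |t|) * |((ι : W m × ℝ →L[ℝ] W (m + 1)).comp B).det| := by
    rw [hdet, abs_mul, abs_mul, abs_mul]
  obtain ⟨a, ha⟩ : ∃ a, a = |(A'.comp (ι.symm : W (m + 1) →L[ℝ] W m × ℝ)).det| := ⟨_, rfl⟩
  obtain ⟨b, hb⟩ : ∃ b, b = |((ι : W m × ℝ →L[ℝ] W (m + 1)).comp B).det| := ⟨_, rfl⟩
  obtain ⟨x, hx⟩ : ∃ x, x = |X.det| * |t| := ⟨_, rfl⟩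
  have hx0 : 0 ≤ x := by rw [hx]; positivity
  rw [← ha] at p1 p2 p3 habs
  rw [← hb] at q1 q2 q3 habs
  rw [← hx] at habs
  rw [← hx, habs]
  constructor
  · have h1 : 1 ≤ (K' * a) * (K' * b) := one_le_mul_of_one_le_of_one_le p3 q3
    calc x = 1 * x := (one_mul x).symm
      _ ≤ ((K' * a) * (K' * b)) * x := mul_le_mul_of_nonneg_right h1 hx0
      _ = K' ^ 2 * (a * x * b) := by ring
  · have h1 : a * b ≤ K' * K' := mul_le_mul p2 q2 q1.le (by linarith)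
    calc a * x * b = (a * b) * x := by ring
      _ ≤ (K' * K') * x := mul_le_mul_of_nonneg_right h1 hx0
      _ = K' ^ 2 * x := by ring

end

end Pool.Agent.VD
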